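import Pool.Agent.Helper63.SM.Defs
import Pool.Agent.Helper63.RKS.Sat

/-!
# SM, block SP: the spectral inequality on the sphere
-/

set_option autoImplicit false

open MeasureTheory Set Filter Topology

namespace Pool.Agent.Helper63.SM

open Pool.Agent.Helper49.EJ Pool.Agent.Helper47.KP Pool.Agent.Helper63.RKS

variable {d : ℕ}

theorem spec_of [NeZero d] (hd : 3 ≤ d) (hp : 0 < pc d) {r : ℝ} (hr0 : 0 < r) (hr1 : r ≤ 1 / 2)
    {J : ℕ} (hJ : (J : ℝ) * (r ^ 2 - r + 1) ≤ r * d / 2 - r ^ 2 * (d - 1) - 1) {ε : ℝ}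
    (hε : 0 < ε) (hε2 : 1 / (pc d * (Nat.choose (J + 1 + (d - 3)) (J + 1) : ℝ)) ≤ ε ^ 2) :
    Spec (sig d) (Rc (d := d)) (pc d) ε := by
  intro φ hφm hφ0 ⟨C, hC⟩
  have hRm : ∀ x : Sph d, MeasurableSet {z | Rc x z} :=
    fun x => (measurable_prodMk_left (x := x)) measurable_Rc
  have hBM : BM φ C := ⟨hφm, fun x => by rw [abs_of_nonneg (hφ0 x)]; exact hC x⟩
  have h0 : ∫ t, capf t / pc d ∂(den d) = 1 := by
    rw [integral_div]; exact div_self hp.ne'
  have hG : ∀ t, |capf t / pc d| ≤ 1 / pc d := fun t => by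
    rw [abs_of_nonneg (div_nonneg (capf_nonneg t) hp.le)]
    exact div_le_div_of_nonneg_right (capf_le t) hp.le
  have key := op_ineq hd (g := fun t => capf t / pc d) (measurable_capf.div_const _) hG h0 hε.le
    (fun j hj => coef_ge hd hp hr0 hr1 hJ hε hε2 j hj) hBM
  have e3 : QF (fun t => capf t / pc d) φ =
      (∫ z, φ z * ∫ w in {w | Rc z w}, φ w ∂(sig d) ∂(sig d)) / pc d := by
    unfold QF
    rw [← integral_div]
    congr 1; funext x
    have e4 : ∫ y : Sph d, φ y * (capf (inner ℝ (x : EE d) (y : EE d)) / pc d) ∂(sig d) =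
        (∫ w in {w | Rc x w}, φ w ∂(sig d)) / pc d := by
      rw [← integral_indicator (hRm x), ← integral_div]
      congr 1; funext y
      by_cases hy : Rc x y
      · rw [indicator_of_mem (show y ∈ {w | Rc x w} from hy)]
        unfold Rc at hy
        unfold capf; rw [if_pos hy]; ring
      · rw [indicator_of_notMem (show y ∉ {w | Rc x w} from hy)]
        unfold Rc at hy
        unfold capf; rw [if_neg hy]; ring
    rw [e4]
    ring
  rw [e3, le_div_iff₀ hp] at key
  calc pc d * ((∫ z, φ z ∂(sig d)) ^ 2 - ε * ∫ z, φ z ^ 2 ∂(sig d))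
      = ((∫ z, φ z ∂(sig d)) ^ 2 - ε * ∫ z, φ z ^ 2 ∂(sig d)) * pc d := by ring
    _ ≤ _ := key

theorem spec_eventually {g : ℝ} (hg : g < Pool.Agent.Helper49.EJ.gst) : ∀ᶠ d : ℕ in atTop, 4 ≤ d ∧
    ∀ _ : NeZero d, Spec (Pool.Agent.Helper47.KP.sig d) (Pool.Agent.Helper49.EJ.Rc (d := d))
      (Pool.Agent.Helper49.EJ.pc d) ((2 : ℝ) ^ (-(g * d))) := by
  have hl2 : 0 < Real.log 2 := Real.log_pos (by norm_num)
  have hδ : 0 < (gst - g) * Real.log 2 := mul_pos (by linarith) hl2
  have hev : ∀ᶠ d : ℕ in atTop, (1 / 2) * Real.log d + Real.log 40 ≤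
      (gst - g) * Real.log 2 * d := by
    have h1 : Tendsto (fun d : ℕ => (2 * Real.log d + 2) / (d : ℝ)) atTop (𝓝 0) := tendsto_logd
    have h2 : Tendsto (fun d : ℕ => |Real.log 40| / (d : ℝ)) atTop (𝓝 0) :=
      tendsto_const_div_atTop_nhds_zero_nat _
    have h3 := (h1.add h2).eventually_lt_const (show 0 + 0 < (gst - g) * Real.log 2 by simpa using hδ)
    filter_upwards [h3, eventually_ge_atTop 1] with d hd hd1
    have hd0 : (0 : ℝ) < d := by exact_mod_cast hd1
    have hlog : 0 ≤ Real.log d := Real.log_natCast_nonneg d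
    rw [← add_div, div_lt_iff₀ hd0] at hd
    have := le_abs_self (Real.log 40)
    linarith
  have hk : ∀ᶠ d : ℕ in atTop, 2 ≤ kap * d := by
    have := (tendsto_natCast_atTop_atTop (R := ℝ)).const_mul_atTop kap_pos
    exact this.eventually_ge_atTop 2
  filter_upwards [hev, choose_growth hδ, hk, eventually_ge_atTop 4] with d h1 h2 h3 h4
  refine ⟨h4, fun hne => ?_⟩
  have hd0 : (0 : ℝ) < d := by exact_mod_cast (by omega : 0 < d)
  have hp := pc_pos h4
  have ⟨hb1, hb2⟩ := sqrt3_bounds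
  set a : ℝ := (2 : ℝ) ^ (-(g * d)) with ha
  have ha0 : 0 < a := Real.rpow_pos_of_pos (by norm_num) _
  set ch : ℝ := ((Nat.choose (JJ d + 1 + (d - 3)) (JJ d + 1) : ℕ) : ℝ) with hch
  have hch0 : 0 < ch := by rw [hch]; exact_mod_cast Nat.choose_pos (by omega)
  refine spec_of (by omega) hp (r := 2 - Real.sqrt 3) (by linarith) (by linarith)
    (JJ_cond h3) (ε := a) ha0 ?_
  rw [div_le_iff₀ (mul_pos hp hch0)]
  have hpl : Real.log (1 / 40) + d * Real.log (Real.sqrt 3 / 2) - 1 / 2 * Real.log d ≤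
      Real.log (pc d) := by
    have h5 := Real.log_le_log (by have := s32_pos; positivity) (pc_ge h4)
    rw [Real.log_div (by have := s32_pos; positivity) (Real.sqrt_pos.2 hd0).ne',
      Real.log_mul (by norm_num) (by have := s32_pos; positivity), Real.log_pow,
      Real.log_sqrt hd0.le] at h5
    linarith
  have h6 : Real.log (Real.sqrt 3 / 2) = -Real.log (2 / Real.sqrt 3) := by
    rw [← Real.log_inv, inv_div]
  have h7 : Real.log (1 / 40) = -Real.log 40 := by rw [one_div, Real.log_inv]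
  have h9 : Real.log (a ^ 2) = -2 * g * d * Real.log 2 := by
    rw [Real.log_pow, ha, Real.log_rpow (by norm_num)]
    push_cast; ring
  have hE := En_eq
  have h10 : 0 ≤ Real.log (a ^ 2 * (pc d * ch)) := by
    rw [Real.log_mul (by positivity) (by positivity), Real.log_mul hp.ne' hch0.ne', h9]
    have h11 : (En - (gst - g) * Real.log 2) * d - d * Real.log (2 / Real.sqrt 3) =
        (2 * gst * Real.log 2 - (gst - g) * Real.log 2) * d := by
      rw [← hE]; ring
    rw [h6, h7] at hpl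
    nlinarith
  exact (Real.log_nonneg_iff (by positivity)).1 h10

end Pool.Agent.Helper63.SM
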